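import Pool.Agent.H354.ISO.Defs

/-! Task REC1 of the project ISO (helper898): the dimensions of the spaces `P R α`. -/

set_option autoImplicit false

namespace Pool.Agent.H898.ISO.REC1

open Pool.Agent.H354.ISO

/-- a subspace with an element whose coordinate at `v` is not zero -/
theorem finrank_eq {F ι : Type} [Field F] [Fintype ι] (v : ι) (S : Submodule F (ι → F)) (a : ι → F)
    (ha : a ∈ S) (hv : a v ≠ 0) :
    Module.finrank F S =
      Module.finrank F ↥(S ⊓ LinearMap.ker (LinearMap.proj v : (ι → F) →ₗ[F] F)) + 1 := by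
  set g : (ι → F) →ₗ[F] F := LinearMap.proj v with hg
  have h1 := LinearMap.finrank_range_add_finrank_ker (g.domRestrict S)
  have h2 : LinearMap.range (g.domRestrict S) = ⊤ := by
    rw [LinearMap.range_eq_top]
    intro c
    refine ⟨(c / a v) • ⟨a, ha⟩, ?_⟩
    rw [map_smul]
    show (c / a v) * a v = c
    exact div_mul_cancel₀ c hv
  have h3 : LinearMap.ker (g.domRestrict S) = (LinearMap.ker g).comap S.subtype := by
    ext x
    rfl
  have h4 : Module.finrank F ↥((LinearMap.ker g).comap S.subtype) =
      Module.finrank F ↥(S ⊓ LinearMap.ker g) := by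
    rw [← Submodule.finrank_map_subtype_eq S, Submodule.map_comap_subtype]
  rw [h2, finrank_top, Module.finrank_self, h3, h4] at h1
  omega

/-- **REC1** -/
theorem t_REC1 : S_REC1 := by
  intro F _ ι _ _ R hsym hirr α v hv
  set g : (ι → F) →ₗ[F] F := LinearMap.proj v with hg
  have hαm : α ∈ P R α := fun u w _ => mul_comm _ _
  have hsm : (Pi.single v 1 : ι → F) ∈ P R (Pi.single v 1 : ι → F) := fun u w _ => mul_comm _ _
  have hs : ∀ β : ι → F, β ∈ P R (Pi.single v 1 : ι → F) ↔ ∀ w, R v w → β w = 0 := by
    intro β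
    constructor
    · intro h w hw
      have hne : w ≠ v := by
        rintro rfl
        exact hirr _ hw
      have h1 := h v w hw
      rw [Pi.single_eq_same, Pi.single_eq_of_ne hne, one_mul, zero_mul] at h1
      exact h1
    · intro h u w huw
      by_cases hu : u = v
      · subst hu
        have hne : w ≠ u := by
          rintro rfl
          exact hirr _ huw
        rw [Pi.single_eq_same, Pi.single_eq_of_ne hne, h w huw, mul_zero, zero_mul]
      · by_cases hw : w = v
        · subst hw
          rw [Pi.single_eq_same, Pi.single_eq_of_ne hu, h u (hsym _ _ huw), mul_zero, zero_mul]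
        · rw [Pi.single_eq_of_ne hu, Pi.single_eq_of_ne hw, zero_mul, zero_mul]
  have h1 := finrank_eq v (P R α) α hαm hv
  have h2 := finrank_eq v (P R (Pi.single v 1 : ι → F)) (Pi.single v 1) hsm (by
    rw [Pi.single_eq_same]
    exact one_ne_zero)
  have hle : P R α ⊓ LinearMap.ker (LinearMap.proj v : (ι → F) →ₗ[F] F) ≤
      P R (Pi.single v 1 : ι → F) ⊓ LinearMap.ker (LinearMap.proj v : (ι → F) →ₗ[F] F) := by
    rintro β ⟨hβ, hβv⟩
    refine ⟨(hs β).2 fun w hw => ?_, hβv⟩
    have h3 : β v = 0 := hβv
    have h4 := hβ v w hw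
    rw [h3, mul_zero] at h4
    exact (mul_eq_zero.1 h4).resolve_left hv
  have hle' := Submodule.finrank_mono hle
  refine ⟨by omega, ?_⟩
  constructor
  · intro heq
    have heq' : P R α ⊓ LinearMap.ker (LinearMap.proj v : (ι → F) →ₗ[F] F) =
        P R (Pi.single v 1 : ι → F) ⊓ LinearMap.ker (LinearMap.proj v : (ι → F) →ₗ[F] F) :=
      Submodule.eq_of_le_of_finrank_eq hle (by omega)
    intro w hw x hwx
    by_contra hcon
    rw [not_or] at hcon
    obtain ⟨hxv, hRx⟩ := hcon
    have hmem : (Pi.single x 1 : ι → F) ∈ P R (Pi.single v 1 : ι → F) ⊓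
        LinearMap.ker (LinearMap.proj v : (ι → F) →ₗ[F] F) := by
      refine ⟨(hs _).2 fun y hy => ?_, ?_⟩
      · have hne : y ≠ x := by
          rintro rfl
          exact hRx hy
        exact Pi.single_eq_of_ne hne _
      · show (Pi.single x 1 : ι → F) v = 0
        exact Pi.single_eq_of_ne (Ne.symm hxv) _
    rw [← heq'] at hmem
    have hne : w ≠ x := by
      rintro rfl
      exact hirr _ hwx
    have h5 := hmem.1 w x hwx
    rw [Pi.single_eq_same, Pi.single_eq_of_ne hne, mul_one, mul_zero] at h5
    exact hw h5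
  · intro hdom
    have hge : P R (Pi.single v 1 : ι → F) ⊓ LinearMap.ker (LinearMap.proj v : (ι → F) →ₗ[F] F) ≤
        P R α ⊓ LinearMap.ker (LinearMap.proj v : (ι → F) →ₗ[F] F) := by
      rintro β ⟨hβ, hβv⟩
      refine ⟨fun u w huw => ?_, hβv⟩
      have h3 : β v = 0 := hβv
      have hβ' := (hs β).1 hβ
      have key : ∀ u w, R u w → α u * β w = 0 := by
        intro u w huw
        by_cases hu : α u = 0
        · rw [hu, zero_mul]
        · rcases hdom u hu w huw with h | h
          · rw [h, h3, mul_zero]
          · rw [hβ' w h, mul_zero]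
      rw [key u w huw, key w u (hsym _ _ huw)]
    have := le_antisymm hle hge
    rw [h1, h2, this]

end Pool.Agent.H898.ISO.REC1
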